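import Pool.Agent.Work.MP_0d53be_an.Full.X.Ev

/-!
# X/Turn: turning the direction

`‖Ew (θ + φ) r - Ew θ (r + i r φ)‖ ≤ |r| φ²` for real `r, φ`.

Proof. The `j`-th coordinate of the difference is, with `w = e^{iθ}`,
`(-1)^j (w/2)^(j+1) (r e^{i(j+1)φ}/(j+1) - r/(j+1) - i r φ)
 = (-1)^j (w/2)^(j+1) (r/(j+1)) (e^{i(j+1)φ} - 1 - i (j+1) φ)`, and `|e^{iy} - 1 - iy| ≤ y²/2`
(`Complex.norm_exp_I_mul_ofReal_sub_one_sub...` or: Taylor; from `1 - cos y ≤ y²/2` and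
`|sin y - y| ≤ ...`; e.g. integrate twice). So its norm is at most
`2^(-(j+1)) (|r|/(j+1)) (j+1)² φ²/2 = |r| φ² (j+1) 2^(-(j+2))`, and `∑_j (j+1) 2^(-(j+2)) = 1`
(`tsum_coe_mul_geometric_of_norm_lt_one`).

`Ew_near`: `‖Ew (θ + φ) r - Ew θ (r + i a)‖ ≤ |r| φ² + |r φ - a|` (`Ew_sub`, `Ew_norm`).
-/

set_option autoImplicit false

namespace Pool.Agent.Work.MP_0d53be_an.Full

private theorem turn_exp (y : ℝ) :
    ‖Complex.exp (y * Complex.I) - 1 - y * Complex.I‖ ≤ y ^ 2 / 2 := by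
  have h := image_norm_le_of_norm_deriv_right_le_deriv_boundary
    (f := fun t : ℝ => Complex.exp ((y * t : ℝ) * Complex.I) - 1 - (y * t : ℝ) * Complex.I)
    (f' := fun t : ℝ => (y * Complex.I) * (Complex.exp ((y * t : ℝ) * Complex.I) - 1))
    (a := 0) (b := 1) (B := fun t => y ^ 2 * t ^ 2 / 2) (B' := fun t => y ^ 2 * t)
    (by fun_prop) ?_ (by simp) ?_ ?_ (x := 1) (by simp)
  · simpa using h
  · intro t _
    have h1 : HasDerivAt (fun t : ℝ => ((y * t : ℝ) : ℂ) * Complex.I) (y * Complex.I) t := by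
      have h2 : HasDerivAt (fun t : ℝ => y * t) y t := by
        simpa using (hasDerivAt_id t).const_mul y
      exact h2.ofReal_comp.mul_const Complex.I
    have h3 := (h1.cexp.sub_const 1).sub h1
    refine (h3.congr_deriv ?_).hasDerivWithinAt
    ring
  · intro t
    have h1 := ((hasDerivAt_pow 2 t).const_mul (y ^ 2)).div_const 2
    refine h1.congr_deriv ?_
    norm_num
    ring
  · intro t ht
    have h1 := Real.norm_exp_I_mul_ofReal_sub_one_le (x := y * t)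
    rw [mul_comm Complex.I] at h1
    rw [norm_mul, norm_mul, Complex.norm_I, mul_one, Complex.norm_real, Real.norm_eq_abs]
    calc |y| * ‖Complex.exp ((y * t : ℝ) * Complex.I) - 1‖ ≤ |y| * ‖y * t‖ := by gcongr
      _ = y ^ 2 * t := by
        rw [Real.norm_eq_abs, abs_mul, abs_of_nonneg ht.1, ← mul_assoc, ← sq, sq_abs]

private theorem turn_coord (θ φ r : ℝ) (j : ℕ) :
    ‖Ewf (θ + φ) r j - Ewf θ (r + (r * φ : ℝ) * Complex.I) j‖ ≤
      |r| * φ ^ 2 * (1 / 2 * (((j + 1 : ℕ) : ℝ) * (1 / 2) ^ (j + 1))) := by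
  have hj : ((j : ℂ) + 1) ≠ 0 := by exact_mod_cast Nat.succ_ne_zero j
  have hjr : (0 : ℝ) < (j : ℝ) + 1 := by positivity
  have e1 : Ewf (θ + φ) r j - Ewf θ (r + (r * φ : ℝ) * Complex.I) j =
      (-1) ^ j * (Complex.exp (θ * Complex.I) / 2) ^ (j + 1) * ((r / (j + 1) : ℝ) : ℂ) *
        (Complex.exp (((j + 1) * φ : ℝ) * Complex.I) - 1 - ((j + 1) * φ : ℝ) * Complex.I) := by
    unfold Ewf
    have e2 : Complex.exp (((θ + φ : ℝ) : ℂ) * Complex.I) =
        Complex.exp (θ * Complex.I) * Complex.exp (φ * Complex.I) := by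
      rw [← Complex.exp_add]
      congr 1
      push_cast
      ring
    have e3 : Complex.exp (((j + 1) * φ : ℝ) * Complex.I) = Complex.exp (φ * Complex.I) ^ (j + 1) := by
      rw [← Complex.exp_nat_mul]
      congr 1
      push_cast
      ring
    have e4 : ((r : ℂ) + ((r * φ : ℝ) : ℂ) * Complex.I).re = r := by
      simp
    have e5 : ((r : ℂ) + ((r * φ : ℝ) : ℂ) * Complex.I).im = r * φ := by
      simp
    rw [e2, e3, e4, e5, Complex.ofReal_re, Complex.ofReal_im]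
    push_cast
    field_simp
    ring
  rw [e1, norm_mul, norm_mul, norm_mul, norm_pow, norm_neg, norm_one, one_pow, one_mul, norm_pow, norm_div,
    Complex.norm_exp_ofReal_mul_I, Complex.norm_ofNat, Complex.norm_real, Real.norm_eq_abs, abs_div,
    abs_of_pos hjr]
  have h1 := turn_exp ((j + 1) * φ)
  calc (1 / 2 : ℝ) ^ (j + 1) * (|r| / (j + 1)) *
        ‖Complex.exp (((j + 1) * φ : ℝ) * Complex.I) - 1 - ((j + 1) * φ : ℝ) * Complex.I‖
      ≤ (1 / 2 : ℝ) ^ (j + 1) * (|r| / (j + 1)) * (((j + 1) * φ) ^ 2 / 2) := by gcongr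
    _ = |r| * φ ^ 2 * (1 / 2 * (((j + 1 : ℕ) : ℝ) * (1 / 2) ^ (j + 1))) := by
      push_cast
      field_simp

theorem Ew_turn (θ φ r : ℝ) :
    ‖Ew (θ + φ) r - Ew θ (r + (r * φ : ℝ) * Complex.I)‖ ≤ |r| * φ ^ 2 := by
  have h0 := hasSum_coe_mul_geometric_of_norm_lt_one (𝕜 := ℝ) (r := 1 / 2) (by norm_num)
  have h1 : HasSum (fun j : ℕ => ((j + 1 : ℕ) : ℝ) * (1 / 2 : ℝ) ^ (j + 1)) 2 := by
    have h2 := (hasSum_nat_add_iff' (f := fun n : ℕ => (n : ℝ) * (1 / 2 : ℝ) ^ n) 1).2 h0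
    have h3 : (1 / 2 : ℝ) / (1 - 1 / 2) ^ 2 - ∑ i ∈ Finset.range 1, ((i : ℕ) : ℝ) * (1 / 2 : ℝ) ^ i = 2 := by
      norm_num
    rw [h3] at h2
    exact h2
  have h4 : HasSum (fun j : ℕ => |r| * φ ^ 2 * (1 / 2 * (((j + 1 : ℕ) : ℝ) * (1 / 2) ^ (j + 1)))) (|r| * φ ^ 2) := by
    have h5 := (h1.mul_left (1 / 2)).mul_left (|r| * φ ^ 2)
    have h6 : |r| * φ ^ 2 * (1 / 2 * 2) = |r| * φ ^ 2 := by ring
    rw [h6] at h5
    exact h5
  rw [norm_ex, ← h4.tsum_eq]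
  refine (ex_summable _).tsum_le_tsum (fun j => ?_) h4.summable
  exact turn_coord θ φ r j

theorem Ew_near (θ φ r a : ℝ) :
    ‖Ew (θ + φ) r - Ew θ (r + a * Complex.I)‖ ≤ |r| * φ ^ 2 + |r * φ - a| := by
  have h1 := Ew_turn θ φ r
  have h2 : Ew θ (r + (r * φ : ℝ) * Complex.I) - Ew θ (r + a * Complex.I) =
      Ew θ (((r * φ - a : ℝ) : ℂ) * Complex.I) := by
    rw [← Ew_sub]
    congr 1
    push_cast
    ring
  have h3 := Ew_norm θ (((r * φ - a : ℝ) : ℂ) * Complex.I)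
  rw [norm_mul, Complex.norm_I, mul_one, Complex.norm_real, Real.norm_eq_abs] at h3
  have h4 : Ew (θ + φ) r - Ew θ (r + a * Complex.I) =
      (Ew (θ + φ) r - Ew θ (r + (r * φ : ℝ) * Complex.I)) +
        (Ew θ (r + (r * φ : ℝ) * Complex.I) - Ew θ (r + a * Complex.I)) := by abel
  rw [h4, h2]
  exact (norm_add_le _ _).trans (add_le_add h1 h3)

end Pool.Agent.Work.MP_0d53be_an.Full
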