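import Pool.Agent.Work.MP_0d53be_an.Full.Defs

/-!
# X/Ev: exponents

`R` is a complex Banach algebra with unit (not necessarily commutative), `b : R` with `PB b`: the
powers of `2b` are bounded, `‖(2b)^n‖ ≤ C` for all `n`.

* `norm_ex`: `lp.norm_eq_tsum_rpow` with `p = 1`. `norm_coord_le`: one term of the sum.
* `ev_summable`: `‖x j • ((2:ℂ)•b)^(j+1)‖ ≤ ‖x j‖ C`.
* `ev_add`, `ev_smul`, `ev_zero`, `ev_neg`, `ev_sub`: `tsum_add` etc.
* `ev_bound`: `‖ev b x‖ ≤ C ‖x‖`.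
* `ev_commute`: limits of polynomials in `b` commute (`Commute.tsum_right` etc.).
* `exp_ev_add`: `NormedSpace.exp_add_of_commute`, after
  `letI := NormedAlgebra.restrictScalars ℚ ℂ R`.
* `exp_close`: `‖exp X - 1‖ ≤ exp ‖X‖ - 1` (power series `exp X - 1 = ∑_{n≥1} X^n/n!`,
  `‖X^n‖ ≤ ‖X‖^n` for `n ≥ 1`).
* `QNb.pb`, `QNb.eight`: `QNb` with `r = 2`, `r = 8`; `‖((2:ℂ)•b)^n‖ ≤ 2^n ‖b^n‖`.
* `Ew_add`, `Ew_sub`, `Ew_zero`, `Ew_smul` (real scalars): coordinatewise.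
  `Ew_norm`: `‖Ew θ ξ‖ = ∑_j ‖Ewf θ ξ j‖ ≤ ∑_j (1/2)^(j+1) ‖ξ‖ = ‖ξ‖` (`Ewf_le`).
* `Ew_zero_coord`: `2 * Ew θ ξ 0 = e^{iθ} ξ` (`Ewf θ ξ 0 = (e^{iθ}/2) (Re ξ + i Im ξ)`).
-/

set_option autoImplicit false

namespace Pool.Agent.Work.MP_0d53be_an.Full

theorem ex_summable (x : Ex) : Summable (fun j => ‖x j‖) := by
  have h := (memℓp_gen_iff (by norm_num)).1 (lp.memℓp x)
  simpa using h

theorem norm_ex (x : Ex) : ‖x‖ = ∑' j, ‖x j‖ := by
  rw [lp.norm_eq_tsum_rpow (by norm_num)]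
  simp

theorem norm_coord_le (x : Ex) (j : ℕ) : ‖x j‖ ≤ ‖x‖ := by
  exact lp.norm_apply_le_norm one_ne_zero x j

section ring

variable {R : Type*} [NormedRing R] [NormedAlgebra ℂ R] [CompleteSpace R]

theorem ev_summable {b : R} (h : PB b) (x : Ex) :
    Summable (fun j : ℕ => x j • ((2 : ℂ) • b) ^ (j + 1)) := by
  obtain ⟨C, hC⟩ := h
  refine Summable.of_norm_bounded ((ex_summable x).mul_right C) (fun j => ?_)
  rw [norm_smul]
  exact mul_le_mul_of_nonneg_left (hC (j + 1)) (norm_nonneg _)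

theorem ev_add {b : R} (h : PB b) (x y : Ex) : ev b (x + y) = ev b x + ev b y := by
  unfold ev
  rw [← (ev_summable h x).tsum_add (ev_summable h y)]
  refine tsum_congr fun j => ?_
  rw [lp.coeFn_add, Pi.add_apply, add_smul]

theorem ev_smul {b : R} (h : PB b) (c : ℂ) (x : Ex) : ev b (c • x) = c • ev b x := by
  unfold ev
  rw [← (ev_summable h x).tsum_const_smul c]
  refine tsum_congr fun j => ?_
  rw [lp.coeFn_smul, Pi.smul_apply, smul_assoc]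

theorem ev_zero (b : R) : ev b 0 = 0 := by
  unfold ev
  rw [← tsum_zero (α := R) (β := ℕ)]
  refine tsum_congr fun j => ?_
  rw [lp.coeFn_zero, Pi.zero_apply, zero_smul]

theorem ev_neg {b : R} (h : PB b) (x : Ex) : ev b (-x) = -ev b x := by
  have h1 := ev_smul h (-1) x
  rwa [neg_one_smul, neg_one_smul] at h1

theorem ev_sub {b : R} (h : PB b) (x y : Ex) : ev b (x - y) = ev b x - ev b y := by
  rw [sub_eq_add_neg, ev_add h, ev_neg h, ← sub_eq_add_neg]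

theorem ev_bound {b : R} (h : PB b) : ∃ C : ℝ, 1 ≤ C ∧ ∀ x : Ex, ‖ev b x‖ ≤ C * ‖x‖ := by
  obtain ⟨C, hC⟩ := h
  refine ⟨max C 1, le_max_right _ _, fun x => ?_⟩
  unfold ev
  refine tsum_of_norm_bounded (g := fun j => max C 1 * ‖x j‖) ?_ (fun j => ?_)
  · rw [norm_ex]
    exact (ex_summable x).hasSum.mul_left _
  · rw [norm_smul, mul_comm]
    exact mul_le_mul_of_nonneg_right ((hC (j + 1)).trans (le_max_left _ _)) (norm_nonneg _)

theorem ev_commute {b : R} (h : PB b) (x y : Ex) : Commute (ev b x) (ev b y) := by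
  have _ := h
  unfold ev
  refine Commute.tsum_right _ (fun j => ?_)
  refine Commute.tsum_left _ (fun k => ?_)
  exact (((Commute.refl ((2 : ℂ) • b)).pow_pow _ _).smul_left _).smul_right _

theorem exp_ev_add {b : R} (h : PB b) (x y : Ex) :
    NormedSpace.exp (ev b (x + y)) = NormedSpace.exp (ev b x) * NormedSpace.exp (ev b y) := by
  letI : NormedAlgebra ℚ R := NormedAlgebra.restrictScalars ℚ ℂ R
  rw [ev_add h, NormedSpace.exp_add_of_commute (ev_commute h x y)]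

theorem exp_close (X : R) : ‖NormedSpace.exp X - 1‖ ≤ Real.exp ‖X‖ - 1 := by
  have h1 := NormedSpace.exp_series_hasSum_exp' (𝕂 := ℂ) X
  have h2 : HasSum (fun n : ℕ => ‖X‖ ^ n / (n.factorial : ℝ)) (Real.exp ‖X‖) := by
    rw [Real.exp_eq_exp_ℝ]
    exact NormedSpace.expSeries_div_hasSum_exp ‖X‖
  have h3 := (hasSum_nat_add_iff' 1).2 h1
  have h4 := (hasSum_nat_add_iff' 1).2 h2
  rw [Finset.sum_range_one] at h3 h4
  have e1 : ((Nat.factorial 0 : ℂ)⁻¹) • X ^ 0 = 1 := by simp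
  have e2 : ‖X‖ ^ 0 / (Nat.factorial 0 : ℝ) = 1 := by simp
  rw [e1] at h3
  rw [e2] at h4
  rw [← h3.tsum_eq]
  refine tsum_of_norm_bounded h4 (fun n => ?_)
  rw [norm_smul, norm_inv, Complex.norm_natCast, div_eq_inv_mul]
  exact mul_le_mul_of_nonneg_left (norm_pow_le' X (Nat.succ_pos n)) (by positivity)

end ring

section comm

variable {B : Type*} [NormedCommRing B] [NormedAlgebra ℂ B]

theorem QNb.pb {b : B} (h : QNb b) : PB b := by
  obtain ⟨C, hC⟩ := h 2 two_pos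
  refine ⟨C, fun n => ?_⟩
  rw [smul_pow, norm_smul, norm_pow, Complex.norm_ofNat]
  exact hC n

theorem QNb.eight {b : B} (h : QNb b) : ∃ C : ℝ, 1 ≤ C ∧ ∀ n : ℕ, 8 ^ n * ‖b ^ n‖ ≤ C := by
  obtain ⟨C, hC⟩ := h 8 (by norm_num)
  exact ⟨max C 1, le_max_right _ _, fun n => (hC n).trans (le_max_left _ _)⟩

end comm

theorem Ew_add (θ : ℝ) (ξ ζ : ℂ) : Ew θ (ξ + ζ) = Ew θ ξ + Ew θ ζ := by
  refine lp.ext (funext fun j => ?_)
  rw [lp.coeFn_add, Pi.add_apply, Ew_apply, Ew_apply, Ew_apply]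
  unfold Ewf
  rw [Complex.add_re, Complex.add_im]
  push_cast
  ring

theorem Ew_sub (θ : ℝ) (ξ ζ : ℂ) : Ew θ (ξ - ζ) = Ew θ ξ - Ew θ ζ := by
  refine lp.ext (funext fun j => ?_)
  rw [lp.coeFn_sub, Pi.sub_apply, Ew_apply, Ew_apply, Ew_apply]
  unfold Ewf
  rw [Complex.sub_re, Complex.sub_im]
  push_cast
  ring

theorem Ew_zero (θ : ℝ) : Ew θ 0 = 0 := by
  refine lp.ext (funext fun j => ?_)
  rw [lp.coeFn_zero, Pi.zero_apply, Ew_apply]
  unfold Ewf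
  simp

theorem Ew_smul (θ r : ℝ) (ξ : ℂ) : Ew θ (r * ξ) = (r : ℂ) • Ew θ ξ := by
  refine lp.ext (funext fun j => ?_)
  rw [lp.coeFn_smul, Pi.smul_apply, Ew_apply, Ew_apply, smul_eq_mul]
  unfold Ewf
  rw [Complex.re_ofReal_mul, Complex.im_ofReal_mul]
  push_cast
  ring

theorem Ew_norm (θ : ℝ) (ξ : ℂ) : ‖Ew θ ξ‖ ≤ ‖ξ‖ := by
  rw [norm_ex]
  have h := hasSum_geometric_two' ‖ξ‖
  rw [← h.tsum_eq]
  refine (Ewf_summable θ ξ).tsum_le_tsum (fun j => ?_) h.summable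
  rw [Ew_apply]
  refine (Ewf_le θ ξ j).trans (le_of_eq ?_)
  rw [pow_succ, one_div, inv_pow]
  field_simp

theorem Ew_zero_coord (θ : ℝ) (ξ : ℂ) : 2 * Ew θ ξ 0 = Complex.exp (θ * Complex.I) * ξ := by
  rw [Ew_apply]
  unfold Ewf
  have h := Complex.re_add_im ξ
  simp only [pow_zero, one_mul, zero_add, pow_one, Nat.cast_zero, div_one]
  rw [h]
  ring

end Pool.Agent.Work.MP_0d53be_an.Full
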