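import Pool.Agent.Work.MP_0d53be_an.Full.X.Ev

/-!
# X/Log: `exp (ev b (Ew θ n)) = (1 + e^{iθ} b)^n`

By `Ew θ n = n • Ew θ 1` (`Ew_smul`), `ev_smul` and `exp (n • X) = (exp X)^n`
(`NormedSpace.exp_nsmul`), it is enough to treat `n = 1`. `ev b (Ew θ 1) = ∑_j (-1)^j w^(j+1)
b^(j+1)/(j+1) =: ℓ(w)` with `w = e^{iθ}`. For `z ∈ [0, 1]` (real) let
`L(z) = ∑_j (-1)^j (z w)^(j+1) b^(j+1)/(j+1)`. Since `‖(2b)^(j+1)‖ ≤ C`, the series of the
derivatives `∑_j (-1)^j z^j w^(j+1) b^(j+1)` converges uniformly on `[-1, 1]`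
(`hasDerivAt_tsum` / `hasDerivAt_tsum_of_isPreconnected`; terms at most `C 2^(-(j+1))`, use the
open interval `(-3/2, 3/2)` and the bound `QNb.eight`), so `L'(z) = S(z)` with
`S(z) (1 + z w b) = w b` (geometric series, telescoping). Let `F(z) = exp(-L(z)) (1 + z w b)`.
Everything commutes, so `F'(z) = -S(z) exp(-L(z)) (1 + z w b) + exp(-L(z)) w b = 0`
(derivative of `exp ∘ (-L)` in a commutative Banach algebra: `HasDerivAt.exp`-type lemma
`hasFDerivAt_exp`/`HasStrictFDerivAt`, or `NormedSpace.exp`'s derivative `hasFDerivAt_exp`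
with `CharZero`). So `F(1) = F(0) = 1` (`L(0) = 0`; `is_const_of_deriv_eq_zero` on the interval),
and multiplying by `exp(L(1))`: `1 + w b = exp(L(1))`.

(Another route: polynomials/power series identity. Any proof is fine.)
-/

set_option autoImplicit false

namespace Pool.Agent.Work.MP_0d53be_an.Full

variable {B : Type*} [NormedCommRing B] [NormedAlgebra ℂ B] [CompleteSpace B]

/-- the geometric series -/
private theorem log_geom {b : B} (w z : ℂ)
    (hs : Summable fun j : ℕ => ((-1) ^ j * w ^ (j + 1) * z ^ j) • b ^ (j + 1)) :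
    (∑' j : ℕ, ((-1) ^ j * w ^ (j + 1) * z ^ j) • b ^ (j + 1)) * (1 + (z * w) • b) = w • b := by
  have h1 := hs.tsum_eq_zero_add
  have h2 : ∑' j : ℕ, ((-1) ^ (j + 1) * w ^ (j + 1 + 1) * z ^ (j + 1)) • b ^ (j + 1 + 1) =
      (∑' j : ℕ, ((-1) ^ j * w ^ (j + 1) * z ^ j) • b ^ (j + 1)) * (-(z * w) • b) := by
    rw [← hs.tsum_mul_right]
    refine tsum_congr fun j => ?_
    rw [smul_mul_smul_comm, ← pow_succ]
    congr 1
    ring
  rw [h2] at h1
  obtain ⟨T, hT⟩ : ∃ T, T = ∑' j : ℕ, ((-1) ^ j * w ^ (j + 1) * z ^ j) • b ^ (j + 1) := ⟨_, rfl⟩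
  rw [← hT] at h1 ⊢
  have h3 : ((-1 : ℂ) ^ 0 * w ^ (0 + 1) * z ^ 0) • b ^ (0 + 1) = w • b := by
    rw [pow_zero, zero_add, pow_one, pow_zero, pow_one, one_mul, mul_one]
  rw [h3, neg_smul] at h1
  linear_combination h1

private theorem log_one {b : B} (h : QNb b) (w : ℂ) (hw : ‖w‖ = 1) :
    NormedSpace.exp (∑' j : ℕ, ((-1) ^ j * w ^ (j + 1) / ((j : ℂ) + 1)) • b ^ (j + 1)) =
      1 + w • b := by
  let _ : NormedAlgebra ℚ B := NormedAlgebra.restrictScalars ℚ ℂ B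
  obtain ⟨C, hC1, hC⟩ := h.eight
  obtain ⟨g, hg⟩ : ∃ g : ℕ → ℂ → B, ∀ j z, g j z =
      ((-1) ^ j * (z * w) ^ (j + 1) / ((j : ℂ) + 1)) • b ^ (j + 1) := ⟨_, fun _ _ => rfl⟩
  obtain ⟨g', hg'⟩ : ∃ g' : ℕ → ℂ → B, ∀ j z, g' j z =
      ((-1) ^ j * w ^ (j + 1) * z ^ j) • b ^ (j + 1) := ⟨_, fun _ _ => rfl⟩
  have hu : Summable fun j : ℕ => C * (1 / 4 : ℝ) ^ j :=
    (summable_geometric_of_lt_one (by norm_num) (by norm_num)).mul_left _
  have hbd : ∀ j : ℕ, ∀ z ∈ Metric.ball (0 : ℂ) 2, ‖g' j z‖ ≤ C * (1 / 4 : ℝ) ^ j := by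
    intro j z hz
    rw [mem_ball_zero_iff] at hz
    have h1 := hC (j + 1)
    have h2 : ‖z‖ ^ j ≤ 2 ^ j := pow_le_pow_left₀ (norm_nonneg z) hz.le j
    rw [hg', norm_smul, norm_mul, norm_mul, norm_pow, norm_pow, norm_pow, hw, norm_neg, norm_one,
      one_pow, one_pow, one_mul, one_mul]
    have h3 : (8 : ℝ) ^ (j + 1) = 2 ^ j * 4 ^ j * 8 := by
      rw [pow_succ, ← mul_pow]
      norm_num
    rw [h3] at h1
    have h4 : (1 / 4 : ℝ) ^ j * 4 ^ j = 1 := by
      rw [← mul_pow]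
      norm_num
    have h5 : (0 : ℝ) < (1 / 4 : ℝ) ^ j := by positivity
    calc ‖z‖ ^ j * ‖b ^ (j + 1)‖ ≤ 2 ^ j * ‖b ^ (j + 1)‖ :=
          mul_le_mul_of_nonneg_right h2 (norm_nonneg _)
      _ = (1 / 4 : ℝ) ^ j * (2 ^ j * 4 ^ j * ‖b ^ (j + 1)‖) := by
          linear_combination (-(2 ^ j * ‖b ^ (j + 1)‖)) * h4
      _ ≤ (1 / 4 : ℝ) ^ j * C := by
          refine mul_le_mul_of_nonneg_left ?_ h5.le
          have h6 : 0 ≤ (2 : ℝ) ^ j * 4 ^ j * ‖b ^ (j + 1)‖ := by positivity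
          nlinarith
      _ = C * (1 / 4 : ℝ) ^ j := by ring
  have hder : ∀ j : ℕ, ∀ z ∈ Metric.ball (0 : ℂ) 2, HasDerivAt (g j) (g' j z) z := by
    intro j z _
    have h0 : g j = fun z => ((-1) ^ j * (z * w) ^ (j + 1) / ((j : ℂ) + 1)) • b ^ (j + 1) :=
      funext (hg j)
    rw [h0, hg']
    refine HasDerivAt.smul_const ?_ _
    have h1 : HasDerivAt (fun z : ℂ => z * w) w z := by
      simpa using (hasDerivAt_id z).mul_const w
    have h2 := ((h1.pow (j + 1)).const_mul ((-1 : ℂ) ^ j)).div_const ((j : ℂ) + 1)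
    have h3 : ((j : ℂ) + 1) ≠ 0 := Nat.cast_add_one_ne_zero j
    have e : (-1 : ℂ) ^ j * (((j + 1 : ℕ) : ℂ) * (z * w) ^ (j + 1 - 1) * w) / ((j : ℂ) + 1) =
        (-1) ^ j * w ^ (j + 1) * z ^ j := by
      rw [Nat.add_sub_cancel, mul_pow, pow_succ w j]
      push_cast
      rw [div_eq_iff h3]
      ring
    rw [e] at h2
    exact h2
  have h0m : (0 : ℂ) ∈ Metric.ball (0 : ℂ) 2 := Metric.mem_ball_self (by norm_num)
  have h1m : (1 : ℂ) ∈ Metric.ball (0 : ℂ) 2 := by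
    rw [mem_ball_zero_iff, norm_one]
    norm_num
  have hg00 : ∀ j, g j 0 = 0 := by
    intro j
    rw [hg, zero_mul, zero_pow (Nat.succ_ne_zero j), mul_zero, zero_div, zero_smul]
  have hg0 : Summable fun j => g j 0 := by
    simp only [hg00]
    exact summable_zero
  have hL : ∀ z ∈ Metric.ball (0 : ℂ) 2, HasDerivAt (fun z => ∑' j, g j z) (∑' j, g' j z) z :=
    fun z hz => hasDerivAt_tsum_of_isPreconnected hu Metric.isOpen_ball
      (convex_ball (0 : ℂ) 2).isPreconnected hder hbd h0m hg0 hz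
  have hS : ∀ z ∈ Metric.ball (0 : ℂ) 2, (∑' j, g' j z) * (1 + (z * w) • b) = w • b := by
    intro z hz
    have h1 : Summable fun j => g' j z := Summable.of_norm_bounded hu fun j => hbd j z hz
    simp only [hg'] at h1 ⊢
    exact log_geom w z h1
  obtain ⟨L, hLd⟩ : ∃ L : ℂ → B, L = fun z => ∑' j, g j z := ⟨_, rfl⟩
  rw [← hLd] at hL
  have hF : ∀ z ∈ Metric.ball (0 : ℂ) 2,
      HasDerivAt (fun z => NormedSpace.exp (-L z) * (1 + (z * w) • b)) 0 z := by
    intro z hz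
    have h1 := (hL z hz).neg
    have h2 : HasDerivAt (fun z => NormedSpace.exp (-L z))
        (NormedSpace.exp (-L z) * -(∑' j, g' j z)) z := by
      have h3 := (hasFDerivAt_exp (𝕂 := ℂ) (x := -L z)).comp_hasDerivAt z h1
      have h4 : (NormedSpace.exp (-L z) • (1 : B →L[ℂ] B)) (-(∑' j, g' j z)) =
          NormedSpace.exp (-L z) * -(∑' j, g' j z) := rfl
      rw [← h4]
      exact h3
    have h4 : HasDerivAt (fun z : ℂ => (1 : B) + (z * w) • b) (w • b) z := by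
      have h5 : HasDerivAt (fun z : ℂ => z * w) w z := by
        simpa using (hasDerivAt_id z).mul_const w
      exact (h5.smul_const b).const_add 1
    have h5 := h2.mul h4
    have e : NormedSpace.exp (-L z) * -(∑' j, g' j z) * (1 + (z * w) • b) +
        NormedSpace.exp (-L z) * w • b = 0 := by
      linear_combination (-NormedSpace.exp (-L z)) * hS z hz
    rw [e] at h5
    exact h5
  have hconst := Metric.isOpen_ball.is_const_of_deriv_eq_zero
    (convex_ball (0 : ℂ) 2).isPreconnected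
    (fun z hz => (hF z hz).differentiableAt.differentiableWithinAt)
    (fun z hz => (hF z hz).deriv) h1m h0m
  have hL0 : L 0 = 0 := by
    rw [hLd]
    simp only [hg00, tsum_zero]
  have hL1 : L 1 = ∑' j : ℕ, ((-1) ^ j * w ^ (j + 1) / ((j : ℂ) + 1)) • b ^ (j + 1) := by
    rw [hLd]
    refine tsum_congr fun j => ?_
    rw [hg, one_mul]
  beta_reduce at hconst
  rw [hL0, neg_zero, NormedSpace.exp_zero, zero_mul, zero_smul, add_zero, one_mul, one_mul]
    at hconst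
  rw [← hL1]
  have h6 : NormedSpace.exp (L 1) * NormedSpace.exp (-L 1) = 1 := by
    rw [← NormedSpace.exp_add_of_commute (Commute.all _ _), add_neg_cancel, NormedSpace.exp_zero]
  linear_combination (1 + w • b) * h6 - NormedSpace.exp (L 1) * hconst

theorem exp_Ew_nat {b : B} (h : QNb b) (θ : ℝ) (n : ℕ) :
    NormedSpace.exp (ev b (Ew θ n)) = (1 + Complex.exp (θ * Complex.I) • b) ^ n := by
  let _ : NormedAlgebra ℚ B := NormedAlgebra.restrictScalars ℚ ℂ B
  have h1 : Ew θ (n : ℂ) = ((n : ℝ) : ℂ) • Ew θ 1 := by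
    rw [← Ew_smul]
    push_cast
    rw [mul_one]
  have h2 : ev b (Ew θ 1) = ∑' j : ℕ, ((-1) ^ j * Complex.exp (θ * Complex.I) ^ (j + 1) /
      ((j : ℂ) + 1)) • b ^ (j + 1) := by
    unfold ev
    refine tsum_congr fun j => ?_
    rw [Ew_apply, Ewf, smul_pow, smul_smul]
    congr 1
    rw [Complex.one_re, Complex.one_im, div_pow]
    push_cast
    have h3 : ((j : ℂ) + 1) ≠ 0 := Nat.cast_add_one_ne_zero j
    have h4 : (2 : ℂ) ^ (j + 1) ≠ 0 := pow_ne_zero _ two_ne_zero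
    field_simp
    ring
  rw [h1, ev_smul h.pb, h2, Complex.ofReal_natCast, Nat.cast_smul_eq_nsmul,
    NormedSpace.exp_nsmul, log_one h _ (Complex.norm_exp_ofReal_mul_I θ)]

end Pool.Agent.Work.MP_0d53be_an.Full
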