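import Pool.Agent.Work.MP_0d53be_an.Full.X.Ev

/-!
# X/Near: the calculus of near returns

* `NR_mono`: clear.
* `NR_add`: `exp(ev(x+y)) b^(M+M') = (exp(ev x) b^M)(exp(ev y) b^M')`; with
  `u = exp(ev x) b^M`, `u' = exp(ev y) b^M'`, `‖u - l b^M‖ ≤ ε`, `‖u' - l' b^M'‖ ≤ ε'`:
  `‖u u' - l l' b^(M+M')‖ ≤ ‖u - l b^M‖ ‖u'‖ + ‖b^M‖ ‖u' - l' b^M'‖
  ≤ ε (‖b^M'‖ + ε') + ‖b^M‖ ε'`.
* `NR_pert`: with `C` from `ev_bound`, `‖y - x‖ ≤ δ`:
  `exp(ev y) b^M - l b^M = (exp(ev(y-x)) - 1) exp(ev x) b^M + (exp (ev x) b^M - l b^M)`, norm at most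
  `(e^{C δ} - 1)(‖b^M‖ + ε) + ε` (`exp_close`, `ev_bound`).
* `near_all`: for `M̄` and `ε̄ > 0` there are `ε₁ > 0`, `κ₁ > 0` such that for all
  `1 ≤ M ≤ M̄`, all `x : Fin M → Ex` (or a list) with `NR b 1 ε₁ (x i)` and all `y` with
  `‖y - ∑ x i‖ ≤ κ₁`: `NR b M ε̄ y`. Proof: by induction on `M̄`, for every `ε > 0` there is `ε₁ > 0`
  such that sums of `M ≤ M̄` exponents in `NR b 1 ε₁` are in `NR b M ε` (`NR_add`: for `M + 1` take
  the constant of `M` for a small `ε'` with `ε' (‖b‖ + ε₁) + ‖b^M‖ ε₁ ≤ ε`); then `NR_pert` with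
  `ε = ε̄/2` and `κ₁` small so that `(e^{C κ₁} - 1)(‖b^M‖ + ε̄) ≤ ε̄/2` for all `M ≤ M̄`.
* `NR_low`: if `NR b M ε x` and `ε ‖b‖ ≤ ‖b^(M+1)‖/2` then `‖exp(ev x) b^(M+1)‖ ≥ ‖b^(M+1)‖/2`, and
  `‖exp(ev x) b^M‖ ≤ ‖b^M‖ + ε`.
* `NR_of_Vn`: `θ ∈ Vn b ε n` gives `NR b 1 ε (Ew θ n)` (`exp_Ew_nat`, `mul_comm`) is in X/Vn.
-/

set_option autoImplicit false

namespace Pool.Agent.Work.MP_0d53be_an.Full

variable {B : Type*} [NormedCommRing B] [NormedAlgebra ℂ B] [CompleteSpace B]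

theorem NR_mono {b : B} {M : ℕ} {ε ε' : ℝ} (h : ε ≤ ε') {x : Ex} (hx : NR b M ε x) :
    NR b M ε' x := by
  obtain ⟨l, hl, hl'⟩ := hx
  exact ⟨l, hl, hl'.trans h⟩

theorem NR_add {b : B} (h : QNb b) {M M' : ℕ} {ε ε' : ℝ} (h' : 0 ≤ ε') {x y : Ex}
    (hx : NR b M ε x) (hy : NR b M' ε' y) :
    NR b (M + M') (ε * (‖b ^ M'‖ + ε') + ‖b ^ M‖ * ε') (x + y) := by
  obtain ⟨l, hl, hx⟩ := hx
  obtain ⟨l', hl', hy⟩ := hy
  refine ⟨l * l', by rw [norm_mul, hl, hl', one_mul], ?_⟩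
  rw [exp_ev_add h.pb]
  have e1 : NormedSpace.exp (ev b x) * NormedSpace.exp (ev b y) * b ^ (M + M') -
      (l * l') • b ^ (M + M') =
      (NormedSpace.exp (ev b x) * b ^ M - l • b ^ M) * (NormedSpace.exp (ev b y) * b ^ M') +
        (l • b ^ M) * (NormedSpace.exp (ev b y) * b ^ M' - l' • b ^ M') := by
    rw [pow_add, mul_smul, sub_mul, mul_sub, smul_mul_smul_comm, mul_smul]
    have e2 : NormedSpace.exp (ev b x) * NormedSpace.exp (ev b y) * (b ^ M * b ^ M') =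
        NormedSpace.exp (ev b x) * b ^ M * (NormedSpace.exp (ev b y) * b ^ M') := by ring
    rw [e2]
    abel
  rw [e1]
  have e3 : ‖NormedSpace.exp (ev b y) * b ^ M'‖ ≤ ‖b ^ M'‖ + ε' := by
    have e4 : NormedSpace.exp (ev b y) * b ^ M' =
        l' • b ^ M' + (NormedSpace.exp (ev b y) * b ^ M' - l' • b ^ M') := by abel
    rw [e4]
    refine (norm_add_le _ _).trans ?_
    rw [norm_smul, hl', one_mul]
    linarith
  have e5 : 0 ≤ ε := (norm_nonneg _).trans hx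
  refine (norm_add_le _ _).trans (add_le_add ?_ ?_)
  · exact (norm_mul_le _ _).trans (mul_le_mul hx e3 (norm_nonneg _) e5)
  · refine (norm_mul_le _ _).trans ?_
    rw [norm_smul, hl, one_mul]
    exact mul_le_mul_of_nonneg_left hy (norm_nonneg _)

private theorem pow_le_const {b : B} (h : QNb b) : ∃ C : ℝ, 1 ≤ C ∧ ∀ n : ℕ, ‖b ^ n‖ ≤ C := by
  obtain ⟨C, hC, hC'⟩ := h.eight
  refine ⟨C, hC, fun n => ?_⟩
  have h1 : (1 : ℝ) ≤ 8 ^ n := one_le_pow₀ (by norm_num)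
  have h2 := norm_nonneg (b ^ n)
  calc ‖b ^ n‖ = 1 * ‖b ^ n‖ := (one_mul _).symm
    _ ≤ 8 ^ n * ‖b ^ n‖ := mul_le_mul_of_nonneg_right h1 h2
    _ ≤ C := hC' n

private theorem sum_near {b : B} (h : QNb b) (Mb : ℕ) : ∀ ε : ℝ, 0 < ε →
    ∃ ε₁ : ℝ, 0 < ε₁ ∧ ∀ M : ℕ, 1 ≤ M → M ≤ Mb → ∀ x : Fin M → Ex,
      (∀ i, NR b 1 ε₁ (x i)) → NR b M ε (∑ i, x i) := by
  obtain ⟨C, hC, hC'⟩ := pow_le_const h
  induction Mb with
  | zero =>
    intro ε _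
    exact ⟨1, one_pos, fun M h1 h2 => absurd h1 (by omega)⟩
  | succ Mb ih =>
    intro ε hε
    have hC0 : 0 < C := by linarith
    obtain ⟨ε₁, h1, h2⟩ := ih (ε / (4 * C)) (by positivity)
    have h3 : 0 < min ε₁ (min 1 (min ε (ε / (2 * C)))) := by
      refine lt_min h1 (lt_min one_pos (lt_min hε (by positivity)))
    refine ⟨min ε₁ (min 1 (min ε (ε / (2 * C)))), h3, fun M hM hM' x hx => ?_⟩
    set e := min ε₁ (min 1 (min ε (ε / (2 * C)))) with he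
    have k1 : e ≤ ε₁ := min_le_left _ _
    have k2 : e ≤ 1 := (min_le_right _ _).trans (min_le_left _ _)
    have k3 : e ≤ ε := (min_le_right _ _).trans ((min_le_right _ _).trans (min_le_left _ _))
    have k4 : e ≤ ε / (2 * C) :=
      (min_le_right _ _).trans ((min_le_right _ _).trans (min_le_right _ _))
    have k5 : ε / (4 * C) ≤ ε := div_le_self hε.le (by linarith)
    rcases Nat.lt_or_ge Mb M with h4 | h4
    · obtain rfl : M = Mb + 1 := by omega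
      rcases Nat.eq_zero_or_pos Mb with rfl | h5
      · rw [Fin.sum_univ_one]
        exact NR_mono k3 (hx 0)
      · rw [Fin.sum_univ_castSucc]
        have h6 : NR b Mb (ε / (4 * C)) (∑ i : Fin Mb, x i.castSucc) :=
          h2 Mb h5 le_rfl _ fun i => NR_mono k1 (hx _)
        refine NR_mono ?_ (NR_add h h3.le h6 (hx (Fin.last Mb)))
        have h7 : ‖b ^ 1‖ ≤ C := hC' 1
        have h8 : ‖b ^ Mb‖ ≤ C := hC' Mb
        have h9 : ε / (4 * C) * (‖b ^ 1‖ + e) ≤ ε / (4 * C) * (2 * C) :=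
          mul_le_mul_of_nonneg_left (by linarith) (by positivity)
        have h10 : ‖b ^ Mb‖ * e ≤ C * (ε / (2 * C)) :=
          mul_le_mul h8 k4 h3.le hC0.le
        have h11 : ε / (4 * C) * (2 * C) = ε / 2 := by
          field_simp
          norm_num
        have h12 : C * (ε / (2 * C)) = ε / 2 := by
          field_simp
        linarith
    · exact NR_mono k5 (h2 M hM h4 x fun i => NR_mono k1 (hx i))

private theorem NR_pert {b : B} (h : QNb b) {C : ℝ} (hC : ∀ x : Ex, ‖ev b x‖ ≤ C * ‖x‖)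
    {M : ℕ} {ε δ : ℝ} (hC0 : 0 ≤ C) {x y : Ex} (hxy : ‖y - x‖ ≤ δ) (hx : NR b M ε x) :
    NR b M ((Real.exp (C * δ) - 1) * (‖b ^ M‖ + ε) + ε) y := by
  obtain ⟨l, hl, hx⟩ := hx
  refine ⟨l, hl, ?_⟩
  have e1 : NormedSpace.exp (ev b y) = NormedSpace.exp (ev b (y - x)) *
      NormedSpace.exp (ev b x) := by
    rw [← exp_ev_add h.pb, sub_add_cancel]
  have e2 : NormedSpace.exp (ev b y) * b ^ M - l • b ^ M =
      (NormedSpace.exp (ev b (y - x)) - 1) * (NormedSpace.exp (ev b x) * b ^ M) +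
        (NormedSpace.exp (ev b x) * b ^ M - l • b ^ M) := by
    rw [e1, sub_mul, one_mul, mul_assoc]
    abel
  have e3 : ‖NormedSpace.exp (ev b x) * b ^ M‖ ≤ ‖b ^ M‖ + ε := by
    have e4 : NormedSpace.exp (ev b x) * b ^ M =
        l • b ^ M + (NormedSpace.exp (ev b x) * b ^ M - l • b ^ M) := by abel
    rw [e4]
    refine (norm_add_le _ _).trans ?_
    rw [norm_smul, hl, one_mul]
    linarith
  have e5 : ‖NormedSpace.exp (ev b (y - x)) - 1‖ ≤ Real.exp (C * δ) - 1 := by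
    refine (exp_close _).trans ?_
    have e6 : ‖ev b (y - x)‖ ≤ C * δ :=
      (hC _).trans (mul_le_mul_of_nonneg_left hxy hC0)
    linarith [Real.exp_le_exp.2 e6]
  rw [e2]
  refine (norm_add_le _ _).trans (add_le_add ?_ hx)
  exact (norm_mul_le _ _).trans (mul_le_mul e5 e3 (norm_nonneg _) ((norm_nonneg _).trans e5))

theorem near_all {b : B} (h : QNb b) (Mb : ℕ) {εb : ℝ} (hε : 0 < εb) :
    ∃ ε₁ : ℝ, 0 < ε₁ ∧ ∃ κ₁ : ℝ, 0 < κ₁ ∧ ∀ M : ℕ, 1 ≤ M → M ≤ Mb → ∀ x : Fin M → Ex,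
      (∀ i, NR b 1 ε₁ (x i)) → ∀ y : Ex, ‖y - ∑ i, x i‖ ≤ κ₁ → NR b M εb y := by
  obtain ⟨C, hC, hC'⟩ := pow_le_const h
  obtain ⟨C₁, hC₁, hC₁'⟩ := ev_bound h.pb
  obtain ⟨ε₁, h1, h2⟩ := sum_near h Mb (εb / 2) (by positivity)
  have hC0 : 0 < C := by linarith
  have hC10 : 0 < C₁ := by linarith
  have h3 : 0 < εb / 2 / (C + εb / 2) := by positivity
  refine ⟨ε₁, h1, Real.log (1 + εb / 2 / (C + εb / 2)) / C₁,
    div_pos (Real.log_pos (by linarith)) hC10, fun M hM hM' x hx y hy => ?_⟩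
  refine NR_mono ?_ (NR_pert h hC₁' hC10.le hy (h2 M hM hM' x hx))
  have h4 : C₁ * (Real.log (1 + εb / 2 / (C + εb / 2)) / C₁) =
      Real.log (1 + εb / 2 / (C + εb / 2)) := by
    field_simp
  rw [h4, Real.exp_log (by linarith), add_sub_cancel_left]
  have h5 : εb / 2 / (C + εb / 2) * (‖b ^ M‖ + εb / 2) ≤
      εb / 2 / (C + εb / 2) * (C + εb / 2) :=
    mul_le_mul_of_nonneg_left (by linarith [hC' M]) h3.le
  have h6 : εb / 2 / (C + εb / 2) * (C + εb / 2) = εb / 2 :=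
    div_mul_cancel₀ _ (by positivity)
  linarith

theorem NR_low {b : B} {M : ℕ} {ε : ℝ} {x : Ex} (hx : NR b M ε x)
    (hε : 2 * (ε * ‖b‖) ≤ ‖b ^ (M + 1)‖) :
    ‖b ^ (M + 1)‖ / 2 ≤ ‖NormedSpace.exp (ev b x) * b ^ (M + 1)‖ ∧
      ‖NormedSpace.exp (ev b x) * b ^ M‖ ≤ ‖b ^ M‖ + ε := by
  obtain ⟨l, hl, hx⟩ := hx
  constructor
  · have e1 : l • b ^ (M + 1) = NormedSpace.exp (ev b x) * b ^ (M + 1) -
        (NormedSpace.exp (ev b x) * b ^ M - l • b ^ M) * b := by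
      rw [sub_mul, pow_succ, smul_mul_assoc, mul_assoc]
      abel
    have e2 : ‖b ^ (M + 1)‖ = ‖l • b ^ (M + 1)‖ := by rw [norm_smul, hl, one_mul]
    have e3 : ‖b ^ (M + 1)‖ ≤ ‖NormedSpace.exp (ev b x) * b ^ (M + 1)‖ + ε * ‖b‖ := by
      rw [e2, e1]
      refine (norm_sub_le _ _).trans (add_le_add le_rfl ?_)
      exact (norm_mul_le _ _).trans (mul_le_mul_of_nonneg_right hx (norm_nonneg _))
    linarith
  · have e4 : NormedSpace.exp (ev b x) * b ^ M =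
        l • b ^ M + (NormedSpace.exp (ev b x) * b ^ M - l • b ^ M) := by abel
    rw [e4]
    refine (norm_add_le _ _).trans ?_
    rw [norm_smul, hl, one_mul]
    linarith

end Pool.Agent.Work.MP_0d53be_an.Full
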