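import Pool.Agent.Work.MP_0d53be_an.Full.X.Log
import Pool.Agent.Work.MP_0d53be_an.Full.X.Near

/-!
# X/Vn: the sets of angles

* `Vn_open`: `Vn b ε n = ⋃_{|l| = 1} {θ | ‖b (1 + e^{iθ} b)^n - l b‖ < ε}`, a union of open sets.
* `Vn_periodic`: `e^{i(θ + 2π)} = e^{iθ}`.
* `NR_of_Vn`: `exp_Ew_nat`, `pow_one`, commutativity.
-/

set_option autoImplicit false

namespace Pool.Agent.Work.MP_0d53be_an.Full

variable {B : Type*} [NormedCommRing B] [NormedAlgebra ℂ B] [CompleteSpace B]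

theorem Vn_open (b : B) (ε : ℝ) (n : ℕ) : IsOpen (Vn b ε n) := by
  have h : Vn b ε n = ⋃ l ∈ {l : ℂ | ‖l‖ = 1},
      {θ : ℝ | ‖b * (1 + Complex.exp (θ * Complex.I) • b) ^ n - l • b‖ < ε} := by
    ext θ
    simp only [Vn, Set.mem_setOf_eq, Set.mem_iUnion, exists_prop]
  rw [h]
  refine isOpen_biUnion fun l _ => ?_
  refine isOpen_lt ?_ continuous_const
  fun_prop

theorem Vn_periodic (b : B) (ε : ℝ) (n : ℕ) (θ : ℝ) :
    θ + 2 * Real.pi ∈ Vn b ε n ↔ θ ∈ Vn b ε n := by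
  have h : Complex.exp (((θ + 2 * Real.pi : ℝ) : ℂ) * Complex.I) =
      Complex.exp (θ * Complex.I) := by
    have h1 : ((θ + 2 * Real.pi : ℝ) : ℂ) * Complex.I =
        (θ : ℂ) * Complex.I + 2 * Real.pi * Complex.I := by
      push_cast
      ring
    rw [h1, Complex.exp_periodic]
  simp only [Vn, Set.mem_setOf_eq]
  rw [h]

theorem NR_of_Vn {b : B} (h : QNb b) {ε : ℝ} {n : ℕ} {θ : ℝ} (hθ : θ ∈ Vn b ε n) :
    NR b 1 ε (Ew θ n) := by
  obtain ⟨l, hl, h1⟩ := hθ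
  refine ⟨l, hl, ?_⟩
  rw [exp_Ew_nat h, pow_one, mul_comm]
  exact h1.le

end Pool.Agent.Work.MP_0d53be_an.Full
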